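import Pool.Agent.W531.SI.Line

/-!
# A vertex transitive sub scale invariant graph

The two-way infinite path is connected, locally finite, infinite and vertex transitive, and for
every `k ≥ 1` and every `k`-net `N` the constant `C_k` of the net graph on `N` is equal to `1`.
-/

set_option autoImplicit false

namespace Pool.Agent.Results.MP_6f70ff_gt.InfinitePath

open Pool.Agent.W531.SI

/-- **Q1.** There is a vertex transitive sub scale invariant graph: in the two-way infinite path all
net graphs are connected and have constant `C_k = 1`, for all `k ≥ 1` and all choices of the
`k`-net; in particular it is sub scale invariant. -/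
theorem result : ∃ (V : Type) (G : SimpleGraph V), G.Connected ∧ LocFinite G ∧ Infinite V ∧
    VertexTransitive G ∧
    (∀ k : ℕ, 1 ≤ k → ∀ N : Set V, IsNet G k N →
      (netGraph G k N).Connected ∧ roughConst G (netGraph G k N) = 1) ∧
    SubScaleInvariant G :=
  ⟨ℤ, line, line_connected, line_locFinite, inferInstance, line_transitive,
    fun _ hk _ hN => ⟨netGraph_connected line_connected hk hN, roughConst_line hk hN⟩,
    line_subScaleInvariant⟩

end Pool.Agent.Results.MP_6f70ff_gt.InfinitePath
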