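import Pool.Agent.W531.SI.Main

/-!
# Vertex transitive sub scale invariant graphs have volume doubling

In particular they have polynomial growth.

Proof.  If `G` does not have volume doubling, then for infinitely many `k` there are very many
points in a ball of radius `12 k` which are pairwise at distance at least `6 k`.  Cut the geodesics
from the centre to these points into pieces of length `k`; by a pigeonhole argument for the last
level on which many of the geodesics are close to one of them, there are a common trunk and many
branches such that the division points form a `k`-separated set.  So there is a `k`-net containing
it, and in its net graph there are too many points at distance at most `12` from one point and with
mutual distances at least `3`: no `C`-rough isometry with `C < 2` exists.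
-/

set_option autoImplicit false

namespace Pool.Agent.Results.MP_6f70ff_gt.VolumeDoublingNecessary

open Pool.Agent.W531.SI

/-- A connected, locally finite, vertex transitive graph which is sub scale invariant has volume
doubling. -/
theorem result {V : Type*} (G : SimpleGraph V) (hG : G.Connected) (hf : LocFinite G)
    (ht : VertexTransitive G) (hs : SubScaleInvariant G) : VolumeDoubling G :=
  doubling_of_subScaleInvariant hG hf ht hs

end Pool.Agent.Results.MP_6f70ff_gt.VolumeDoublingNecessary
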